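import Pool.Agent.H80.Kac.Rep

set_option autoImplicit false

namespace Pool.Agent.Results.MP_f85ae1_al.KacEveryPrime

open Pool.Agent.H80.Kac

/-- The divisibility conjecture of Kac for Lie algebras of algebraic groups fails in every
characteristic `p`, with unbounded defect: for every algebraically closed field `k` of
characteristic `p` and every `m` there are a Zariski closed, irreducible (hence connected),
solvable subgroup `S` of `GL` over `k` in dimension `(p + 1) m`, a linear form `χ` and a
one-dimensional (hence simple) module over the reduced enveloping algebra of `χ`, while the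
centraliser of `χ` in the Lie algebra of `S` has codimension `2 m`. In particular for `m ≥ 1` the
power of `p` with exponent half of the codimension does not divide the dimension of the module. -/
theorem result (p : ℕ) (hp : p.Prime) (k : Type) [Field k] [IsAlgClosed k] [CharP k p] (m : ℕ) :
    ∃ (S : Subgroup (Matrix.GeneralLinearGroup (Fin (p + 1) × Fin m) k))
      (χ : Matrix (Fin (p + 1) × Fin m) (Fin (p + 1) × Fin m) k →ₗ[k] k)
      (ρ : Matrix (Fin (p + 1) × Fin m) (Fin (p + 1) × Fin m) k →ₗ[k] Module.End k k),
      ZariskiClosed S ∧ ZariskiIrreducible S ∧ Group.IsSolvable S ∧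
      IsReducedModule p S χ ρ ∧
      Module.finrank k (lieAlg S) = Module.finrank k (chiCentralizer S χ) + 2 * m ∧
      (1 ≤ m → ¬ p ^ ((Module.finrank k (lieAlg S) -
        Module.finrank k (chiCentralizer S χ)) / 2) ∣ Module.finrank k k) := by
  have hinf : Infinite k := IsAlgClosed.instInfinite
  refine ⟨G p m k hp, chi p m k, rho p m k, closed_G hp, irreducible_G hp, solvable_G hp,
    reduced hp, ?_, ?_⟩
  · rw [finrank_lieAlg, finrank_centralizer]
    ring
  · intro hm
    rw [finrank_lieAlg, finrank_centralizer, Module.finrank_self, Nat.dvd_one]
    have h1 : (3 * m - m) / 2 = m := by omega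
    rw [h1]
    intro h
    have := Nat.one_lt_pow (by omega : m ≠ 0) hp.one_lt
    omega

end Pool.Agent.Results.MP_f85ae1_al.KacEveryPrime
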